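import Mathlib
import Pool.Agent.Q256.UP.PlA

set_option autoImplicit false

/-!
# Integer points on the curves with a given irreducible leading form: statements (project UI)

`Φ ∈ ℤ[x, y]` is a fixed form of degree `d ≥ 7`, irreducible over `ℚ`, and `F = Φ + G` runs through
the polynomials with leading form `Φ` whose lower coefficients (`N' = d (d + 1) / 2` of them) have
absolute value at most `H`. THEOREM: among the `F` with an integer zero all but a proportion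
`O(H ^ (-1/6))` have exactly ONE integer zero (no restriction on the size), and it has size at most
`R` up to a proportion `O(R ^ (-(d - 3)) + H ^ (-1/6))`.

Plan. The number of `F` with an integer zero is at least `(2H+1)^(N'-1)` (`F(0,0) = 0`). We bound the
number of the `F` with a zero of size about `T`:
* `T ≤ C H`: per point (digits in base `x`), `SML`;
* `C H ≤ T ≤ H ^ (d - 3)`: the points are in strips `|y - θ x| ≤ C H`, `MID`;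
* `H ^ (d - 3) ≤ T`: `BGN`, `BGD` (the new part): near the asymptote the integer points lie on few
  lines (three points in a window of length `c T / H^(2/3)` are collinear, by second divided
  differences), three collinear points in a window force the coefficient `rho` of the asymptotic
  expansion to be tiny, which determines the coefficient of `x^(d-2)` of `F`;
* `T > H ^ C`: the starting result `MP_2d259b_nt.FewExceptionalCurves`.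
All the counts use the modification principle: if `F` has the zero `P = (x, y)`, `|x| > H`, and `g`
is a polynomial in `x` of degree `m` with coefficients in `[0, H]`, then `F + g` has at `P` a value of
size at most `(m+1) H |x|^m`, and this value determines `g`.
-/

namespace Pool.Agent.Q256.UI

open Finset MvPolynomial
open Pool.Agent.Q256.UP (PBox)

/-- The value of `F` at a real point. -/
noncomputable def ev (F : MvPolynomial (Fin 2) ℤ) (x y : ℝ) : ℝ :=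
  MvPolynomial.eval₂ (Int.castRingHom ℝ) ![x, y] F

/-- The coefficient of `x^(k-j) u^j` in `F_k(x, θ x + u)`, `F_k` the homogeneous part of degree `k`. -/
noncomputable def tc (F : MvPolynomial (Fin 2) ℤ) (θ : ℝ) (k j : ℕ) : ℝ :=
  ∑ i ∈ range (k + 1),
    ((F.coeff (Finsupp.single 0 (k - i) + Finsupp.single 1 i) : ℤ) : ℝ) * (i.choose j : ℝ) *
      θ ^ (i - j)

/-- The polynomial `∑ a k j x^(k-j) u^j`. -/
noncomputable def Q (d : ℕ) (a : ℕ → ℕ → ℝ) (x u : ℝ) : ℝ :=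
  ∑ k ∈ range (d + 1), ∑ j ∈ range (k + 1), a k j * x ^ (k - j) * u ^ j

/-- The sizes of the coefficients: the leading form has bounded coefficients and vanishes simply on
`u = 0`, the other ones are `O(H)`. -/
structure Bd (d : ℕ) (A H : ℝ) (a : ℕ → ℕ → ℝ) : Prop where
  zero : a d 0 = 0
  one : 1 ≤ A * |a d 1|
  top : ∀ j, j ≤ d → |a d j| ≤ A
  low : ∀ k j, k < d → j ≤ k → |a k j| ≤ A * H

/-- The asymptote is `u = kap`. -/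
noncomputable def kap (d : ℕ) (a : ℕ → ℕ → ℝ) : ℝ := -a (d - 1) 0 / a d 1

/-- The first coefficient of the asymptotic expansion (up to the factor `-a d 1`). -/
noncomputable def rho (d : ℕ) (a : ℕ → ℕ → ℝ) : ℝ :=
  a d 2 * kap d a ^ 2 + a (d - 1) 1 * kap d a + a (d - 2) 0

/-- Liouville's inequality `|θ - a / b| ≥ 1 / (A b^d)`. -/
def Lio (d : ℕ) (A θ : ℝ) : Prop :=
  ∀ a b : ℤ, 1 ≤ b → 1 ≤ A * |(b : ℝ) * θ - a| * (b : ℝ) ^ (d - 1)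

/-- `Φ` is a form of degree `d`, irreducible over `ℚ`. -/
structure Lead (d : ℕ) (Φ : MvPolynomial (Fin 2) ℤ) : Prop where
  hom : Φ.IsHomogeneous d
  irr : Irreducible (MvPolynomial.map (Int.castRingHom ℚ) Φ)

/-- The polynomials `F = Φ + G`, `deg G ≤ d - 1`, coefficients of `G` in `[-H, H]`. -/
def Fam (Φ : MvPolynomial (Fin 2) ℤ) (d H : ℕ) : Set (MvPolynomial (Fin 2) ℤ) :=
  {F | ∃ G ∈ PBox (d - 1) H, F = Φ + G}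

/-- The number of the lower coefficients. -/
def NN (d : ℕ) : ℕ := (d + 1).choose 2

/-- The integer points with `T ≤ x ≤ 2 T` near the asymptotic direction at which the polynomial is
at most `W`. -/
def Ap (d : ℕ) (a : ℕ → ℕ → ℝ) (θ A H T W : ℝ) : Set (ℤ × ℤ) :=
  {p | T ≤ p.1 ∧ (p.1 : ℝ) ≤ 2 * T ∧ |(p.2 : ℝ) - θ * p.1| ≤ A * H ∧
    |Q d a p.1 ((p.2 : ℝ) - θ * p.1)| ≤ W}

/-- The real zeros of `Φ(1, z)`, `|z| ≤ 1` (or a little more), with all the uniform bounds. -/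
structure Pkg (d : ℕ) (Φ : MvPolynomial (Fin 2) ℤ) (Θ : Finset ℝ) (A : ℝ) : Prop where
  one : (d : ℝ) * 4 ^ d ≤ A
  lio : ∀ θ ∈ Θ, Lio d A θ
  bd : ∀ θ ∈ Θ, ∀ H : ℕ, 1 ≤ H → ∀ F ∈ Fam Φ d H, Bd d A H (tc F θ)
  near : ∀ H : ℕ, 1 ≤ H → ∀ F ∈ Fam Φ d H, ∀ x y : ℤ, A * H ≤ x → |y| ≤ x →
    |ev F x y| ≤ d * 2 ^ d * H * (x : ℝ) ^ (d - 1) → ∃ θ ∈ Θ, |(y : ℝ) - θ * x| ≤ A * H

/-- The `F` of the family with a zero `(x, y)`, `a ≤ x ≤ b`, `|y| ≤ x`. -/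
def ZR (Φ : MvPolynomial (Fin 2) ℤ) (d H a b : ℕ) : Set (MvPolynomial (Fin 2) ℤ) :=
  {F | F ∈ Fam Φ d H ∧ ∃ x y : ℤ, (a : ℤ) ≤ x ∧ x ≤ b ∧ |y| ≤ x ∧ eval ![x, y] F = 0}

/-! ## Analysis: divided differences

Throughout, all constants `C` depend on `d` and `A` only. For `(k, j) ≠ (d, 0)` put
`i = d - 1 - k + j ≥ 0`. Dividing by `x^(d-1)`,
`Q d a x u / x^(d-1) = a d 1 * u + a (d-1) 0 + ∑ over (k, j) with i ≥ 1 of a k j u^j x^(-i)`.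
For `i ≥ 1` we have `|a k j| (A H)^j ≤ C H^(i+1)` and `|a k j| (A H)^(j-1) ≤ C H^i` (`j ≥ 1`),
`|a k j| (A H)^(j-2) ≤ C H^(i-1)` (`j ≥ 2`), since `j = i + 1` if `k = d` and `j ≤ i` if `k < d`. -/

/-- **JOB DD1** (0.8 h), `theorem dd1 : S_DD1`. First differences. PROOF. Divide the two inequalities by
`x^(d-1)`, `y^(d-1) ≥ T^(d-1)` and subtract: `|a d 1 (u - v)| ≤ 2 W / T^(d-1) + ∑ |a k j| |u^j x^(-i) - v^j y^(-i)|`,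
the sum over the `(k, j)` with `i ≥ 1`. Here
`|u^j x^(-i) - v^j y^(-i)| ≤ j (A H)^(j-1) |u - v| T^(-i) + (A H)^j i T^(-i-1) |x - y|`, so that the
term is at most `C ((H/T) |u - v| + (H^2/T^2) |x - y|)` (`H ≤ T`, `i ≥ 1`). Since `|a d 1| ≥ 1/A`, the first
part is absorbed for `T ≥ C H`. -/
def S_DD1 : Prop :=
  ∀ (d : ℕ) (A : ℝ), 5 ≤ d → 1 ≤ A → ∃ C : ℝ, 1 ≤ C ∧ ∀ (H T W : ℝ) (a : ℕ → ℕ → ℝ),
    1 ≤ H → C * H ≤ T → Bd d A H a → 0 ≤ W → ∀ x y u v : ℝ, T ≤ x → x ≤ 2 * T → T ≤ y → y ≤ 2 * T →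
    |u| ≤ A * H → |v| ≤ A * H → |Q d a x u| ≤ W → |Q d a y v| ≤ W →
    |u - v| ≤ C * (H ^ 2 / T ^ 2 * |x - y| + W / T ^ (d - 1))

/-- **JOB DD2** (1.5 h), `theorem dd2 : S_DD1 → S_DD2`. Second differences. PROOF. For functions on the
three nodes `x, y, z` write `g[x,y] = (g x - g y)/(x - y)` and `g[x,y,z] = (g[x,y] - g[y,z])/(x - z)`.
Leibniz: `(g h)[x,y] = g x h[x,y] + g[x,y] h y`, `(g h)[x,y,z] = g x h[x,y,z] + g[x,y] h[y,z] + g[x,y,z] h z`.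
Let `U0 = A H`, `U1` = the largest `|u[.,.]|` and `U2 = |u[x,y,z]|` (the function with the values
`u, v, w`). By DD1, `W ≤ A H T^(d-3)` and `|x - y| ≥ 1` etc. we have `U1 ≤ C H^2/T^2`. Apply
`[x,y,z]` to `a d 1 * u + a (d-1) 0 + ∑ a k j u^j x^(-i) = ε`, `|ε| ≤ W/T^(d-1)` at the nodes.
`|(u^j)[x,y]| ≤ j U0^(j-1) U1`, `|(u^j)[x,y,z]| ≤ j U0^(j-1) U2 + j^2 U0^(j-2) U1^2`,
`|(x^(-i))[x,y]| ≤ i T^(-i-1)`, `|(x^(-i))[x,y,z]| ≤ i^2 T^(-i-2)`. So a term with `i ≥ 1` is at most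
`C [(H/T)^i U2 + H^(i-1) T^(-i) U1^2 + H^i T^(-i-1) U1 + H^(i+1) T^(-i-2)] ≤ C [(H/T) U2 + H^2/T^3]`.
Hence, for `T ≥ C H`, `U2 ≤ C (H^2/T^3 + |ε[x,y,z]|)`; multiply by `|x-y| |y-z| |z-x|`:
`u (y-z) + v (z-x) + w (x-y)` is up to the sign this product times `u[x,y,z]`, and
`|ε[x,y,z]|` times the product is at most `(W/T^(d-1)) (|x-y| + |y-z| + |z-x|)`. -/
def S_DD2 : Prop :=
  ∀ (d : ℕ) (A : ℝ), 5 ≤ d → 1 ≤ A → ∃ C : ℝ, 1 ≤ C ∧ ∀ (H T W : ℝ) (a : ℕ → ℕ → ℝ),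
    1 ≤ H → C * H ≤ T → Bd d A H a → 0 ≤ W → W ≤ A * H * T ^ (d - 3) → ∀ x y z u v w : ℝ,
    T ≤ x → x ≤ 2 * T → T ≤ y → y ≤ 2 * T → T ≤ z → z ≤ 2 * T →
    1 ≤ |x - y| → 1 ≤ |y - z| → 1 ≤ |z - x| →
    |u| ≤ A * H → |v| ≤ A * H → |w| ≤ A * H →
    |Q d a x u| ≤ W → |Q d a y v| ≤ W → |Q d a z w| ≤ W →
    |u * (y - z) + v * (z - x) + w * (x - y)| ≤
      C * (H ^ 2 / T ^ 3 * (|x - y| * |y - z| * |z - x|) +
        W / T ^ (d - 1) * (|x - y| + |y - z| + |z - x|))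

/-- **JOB DD3** (1.5 h), `theorem dd3 : S_DD1 → S_DD3`. Three collinear points. PROOF. Notation as in
DD2; now `U2 = 0`. `U1 ≤ C H^2/T^2`. Apply `[x,y,z]`: `0 = ∑ (a k j u^j x^(-i))[x,y,z] - ε[x,y,z]`, the sum
over `i ≥ 1`, `|ε[x,y,z]| ≤ 3 W/(T^(d-1) b^2)`. The terms with `i ≥ 2` are at most
`C [H^(i-1) T^(-i) U1^2 + H^i T^(-i-1) U1 + H^(i+1) T^(-i-2)] ≤ C H^3/T^4`. The terms with `i = 1` are
`(d, 2)`, `(d-1, 1)`, `(d-2, 0)`, together `(q(u)/x)[x,y,z]` with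
`q(u) = a d 2 u^2 + a (d-1) 1 u + a (d-2) 0`; by Leibniz this is `q(u)(x) (1/x)[x,y,z]` (and
`(1/x)[x,y,z] = 1/(x y z)`, of absolute value `≥ 1/(8 T^3)`) plus terms at most
`C (H U1 T^(-2) + U1^2 T^(-1)) ≤ C H^3/T^4` (`q(u)[x,y,z] = a d 2 u[x,y] u[y,z]` as `U2 = 0`).
So `|q(u)| ≤ C (H^3/T + W T^3/(T^(d-1) b^2))`. Finally `|u - kap| ≤ C H^2/T`, because
`|a d 1 (u - kap)| = |a d 1 u + a (d-1) 0| ≤ W/T^(d-1) + ∑ (i ≥ 1) |a k j| (A H)^j T^(-i) ≤ C H^2/T`, hence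
`|q(u) - rho| ≤ C H |u - kap| ≤ C H^3/T` (`|kap| ≤ A^2 H`). -/
def S_DD3 : Prop :=
  ∀ (d : ℕ) (A : ℝ), 5 ≤ d → 1 ≤ A → ∃ C : ℝ, 1 ≤ C ∧ ∀ (H T W b : ℝ) (a : ℕ → ℕ → ℝ),
    1 ≤ H → C * H ≤ T → Bd d A H a → 0 ≤ W → W ≤ A * H * T ^ (d - 3) → 1 ≤ b →
    ∀ x y z u v w : ℝ,
    T ≤ x → x ≤ 2 * T → T ≤ y → y ≤ 2 * T → T ≤ z → z ≤ 2 * T →
    b ≤ |x - y| → b ≤ |y - z| → b ≤ |z - x| →
    |u| ≤ A * H → |v| ≤ A * H → |w| ≤ A * H →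
    |Q d a x u| ≤ W → |Q d a y v| ≤ W → |Q d a z w| ≤ W →
    u * (y - z) + v * (z - x) + w * (x - y) = 0 →
    |rho d a| ≤ C * (H ^ 3 / T + W * T ^ 3 / (T ^ (d - 1) * b ^ 2))

/-! ## Integer points in short windows -/

/-- **JOB SPC** (0.5 h), `theorem spc : S_DD1 → S_SPC`. The spacing. PROOF. `u = p.2 - θ p.1`, `v` the same
for `q`. By DD1 `|u - v| ≤ C (H^2/T^2 |p.1 - q.1| + A H/T^2)` (`W/T^(d-1) ≤ A H/T^2`). If `p.1 = q.1` then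
`1 ≤ |p.2 - q.2| = |u - v| ≤ C A H/T^2 < 1` (`T ≥ C' H`), a contradiction. So `|p.1 - q.1| ≥ 1` and
`|u - v| ≤ 2 C A (H^2/T^2) |p.1 - q.1|`. Liouville with `b = |p.1 - q.1|` and `a = ± (p.2 - q.2)`:
`1 ≤ A |u - v| |p.1 - q.1|^(d-1) ≤ C (H^2/T^2) |p.1 - q.1|^d`. -/
def S_SPC : Prop :=
  ∀ (d : ℕ) (A : ℝ), 5 ≤ d → 1 ≤ A → ∃ C : ℝ, 1 ≤ C ∧ ∀ (H T W θ : ℝ) (a : ℕ → ℕ → ℝ),
    1 ≤ H → C * H ≤ T → Bd d A H a → Lio d A θ → 0 ≤ W → W ≤ A * H * T ^ (d - 3) →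
    ∀ p ∈ Ap d a θ A H T W, ∀ q ∈ Ap d a θ A H T W, p ≠ q →
      p.1 ≠ q.1 ∧ T ^ 2 ≤ C * H ^ 2 * |(p.1 : ℝ) - q.1| ^ d

/-- **JOB COL** (0.5 h), `theorem col : S_DD2 → S_SPC → S_COL`. PROOF. If two of the three points are equal the
determinant vanishes. Otherwise the `p.1, q.1, r.1` are different integers by SPC. With `u = p.2 - θ p.1` etc.
the determinant is `u (y - z) + v (z - x) + w (x - y)`, `x = p.1`, `y = q.1`, `z = r.1` (the part with `θ`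
cancels), by DD2 at most `C (H^2/T^3 L^3 + 3 L A H/T^2) ≤ C c + 3 C A H/T < 1` for `c` small and
`T ≥ C' H` (`L ≤ T` if `c ≤ 1`). It is an integer, so `0`. -/
def S_COL : Prop :=
  ∀ (d : ℕ) (A : ℝ), 5 ≤ d → 1 ≤ A → ∃ c C : ℝ, 0 < c ∧ 1 ≤ C ∧
    ∀ (H T W L θ : ℝ) (a : ℕ → ℕ → ℝ),
    1 ≤ H → C * H ≤ T → Bd d A H a → Lio d A θ → 0 ≤ W → W ≤ A * H * T ^ (d - 3) →
    0 ≤ L → L ^ 3 * H ^ 2 ≤ c * T ^ 3 →
    ∀ p ∈ Ap d a θ A H T W, ∀ q ∈ Ap d a θ A H T W, ∀ r ∈ Ap d a θ A H T W,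
      |(p.1 : ℝ) - q.1| ≤ L → |(q.1 : ℝ) - r.1| ≤ L → |(r.1 : ℝ) - p.1| ≤ L →
      p.2 * (q.1 - r.1) + q.2 * (r.1 - p.1) + r.2 * (p.1 - q.1) = 0

/-- **JOB TWO** (0.7 h), `theorem two : S_DD3 → S_SPC → S_COL → S_TWO`. No three points in a window if
`|rho| > 1/4`. PROOF. `d ≥ 7`, `H ≥ H0` large, `T ≥ H^(d-3) ≥ H^4`, so `T ≥ C H`, and
`W ≤ A H T^(d-4) ≤ A H T^(d-3)`. Three different points `p, q, r`: their first coordinates are different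
(SPC), the determinant vanishes (COL), and `|p.1 - q.1|^d ≥ T^2/(C H^2)` etc. Let `b ≥ 1` be the smallest of the
three distances: `b^d ≥ T^2/(C H^2) ≥ H^(2(d-4))/C`. By DD3 (with `u = p.2 - θ p.1` etc.)
`1/4 < |rho| ≤ C (H^3/T + A H T^(d-4) T^3/(T^(d-1) b^2)) = C (H^3/T + A H/b^2)`. `H^3/T ≤ 1/H`. If
`b^2 ≤ K H` then `H^(4(d-4))/C^2 ≤ (b^2)^d ≤ K^d H^d`, i.e. `H^(3d-16) ≤ C^2 K^d`, false for `H ≥ H0(K)` as
`3 d - 16 ≥ 5`; take `K = 8 C A`. -/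
def S_TWO : Prop :=
  ∀ (d : ℕ) (A : ℝ), 7 ≤ d → 1 ≤ A → ∃ c H0 : ℝ, 0 < c ∧ 1 ≤ H0 ∧
    ∀ (H T W L θ : ℝ) (a : ℕ → ℕ → ℝ),
    H0 ≤ H → H ^ (d - 3) ≤ T → Bd d A H a → Lio d A θ → 0 ≤ W → W ≤ A * H * T ^ (d - 4) →
    0 ≤ L → L ^ 3 * H ^ 2 ≤ c * T ^ 3 → 1 / 4 < |rho d a| →
    ∀ p ∈ Ap d a θ A H T W, ∀ q ∈ Ap d a θ A H T W, ∀ r ∈ Ap d a θ A H T W,
      |(p.1 : ℝ) - q.1| ≤ L → |(q.1 : ℝ) - r.1| ≤ L → |(r.1 : ℝ) - p.1| ≤ L →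
      p ≠ q → q ≠ r → r ≠ p → False

/-- **JOB WND** (0.4 h), `theorem wnd : S_WND`. Covering by windows. PROOF. `[T, 2T]` is covered by the
`n = ⌈T/L⌉ ≤ T/L + 1 ≤ 2 T/L` intervals `[T + i L, T + (i+1) L]`, `i < n`. -/
def S_WND : Prop :=
  ∀ (S : Set (ℤ × ℤ)) (T L M : ℝ), 0 < L → L ≤ T → 0 ≤ M →
    (∀ p ∈ S, T ≤ p.1 ∧ (p.1 : ℝ) ≤ 2 * T) →
    (∀ X : ℝ, {p | p ∈ S ∧ X ≤ p.1 ∧ (p.1 : ℝ) ≤ X + L}.Finite ∧
      ({p | p ∈ S ∧ X ≤ p.1 ∧ (p.1 : ℝ) ≤ X + L}.ncard : ℝ) ≤ M) →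
    S.Finite ∧ (S.ncard : ℝ) ≤ 2 * M * (T / L)

/-- **JOB CND** (0.5 h), `theorem cnd : S_TWO → S_WND → S_CND`. PROOF. `L = c' T/H^(2/3)` with `c'^3 ≤ c`, `c' ≤ 1`.
Each window of length `L` contains at most 2 points (TWO; a set in which there are no three different points is
finite with at most 2 elements), so WND gives `4 T/L = (4/c') H^(2/3)`. -/
def S_CND : Prop :=
  ∀ (d : ℕ) (A : ℝ), 7 ≤ d → 1 ≤ A → ∃ C H0 : ℝ, 1 ≤ C ∧ 1 ≤ H0 ∧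
    ∀ (H T W θ : ℝ) (a : ℕ → ℕ → ℝ),
    H0 ≤ H → H ^ (d - 3) ≤ T → Bd d A H a → Lio d A θ → 0 ≤ W → W ≤ A * H * T ^ (d - 4) →
    1 / 4 < |rho d a| →
    (Ap d a θ A H T W).Finite ∧ ((Ap d a θ A H T W).ncard : ℝ) ≤ C * H ^ ((2 : ℝ) / 3)

/-- **JOB LCK** (0.6 h), `theorem lck : S_LCK`. PROOF. The set is finite as `p` is not constant. Let `n` be the
number of its elements and `q = ⌊(n - 1)/d⌋`; if `q ≥ 1` take its elements number `0, q, 2q, …, dq` in increasing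
order, `t_0 < … < t_d`, `|t_i - t_j| ≥ q`. The `d`-th divided difference (Lagrange interpolation: the leading
coefficient) gives `1 ≤ |p.leadingCoeff| = |∑ p(t_i)/∏_(j ≠ i)(t_i - t_j)| ≤ (d+1) B/q^d`, so
`q ≤ ((d+1) B)^(1/d)` and `n ≤ d (q + 1) ≤ C B^(1/d)`. -/
def S_LCK : Prop :=
  ∀ d : ℕ, 1 ≤ d → ∃ C : ℝ, 1 ≤ C ∧ ∀ p : Polynomial ℤ, p.natDegree = d → ∀ B : ℝ, 1 ≤ B →
    {t : ℤ | |((p.eval t : ℤ) : ℝ)| ≤ B}.Finite ∧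
    ({t : ℤ | |((p.eval t : ℤ) : ℝ)| ≤ B}.ncard : ℝ) ≤ C * B ^ ((1 : ℝ) / d)

/-- **JOB NZR** (0.6 h), `theorem nzr : S_NZR`. PROOF. Over `ℚ`: if `Φ(b, a) = 0` with `(b, a) ≠ 0` then the form
`Φ` is divisible by the linear form `a x - b y` (dehomogenize: a zero of a binary form is a linear factor), and
the quotient has degree `d - 1 ≥ 1`, so `Φ` is not irreducible. -/
def S_NZR : Prop :=
  ∀ (d : ℕ) (Φ : MvPolynomial (Fin 2) ℤ), 2 ≤ d → Lead d Φ → ∀ a b : ℤ, (a ≠ 0 ∨ b ≠ 0) →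
    eval ![b, a] Φ ≠ 0

/-- **JOB LIN** (0.9 h), `theorem lin : S_LCK → S_NZR → S_LIN`. PROOF. If `S` has at most one element use `C ≥ 1`.
Otherwise take two of its points `P0 ≠ P1`, `P1 - P0 = g (b, a)` with `gcd(b, a) = 1`. All the points of `S` are
collinear with `P0, P1`, so of the form `P0 + t (b, a)`, `t ∈ ℤ` (determinant `0` and `gcd = 1`). The polynomial
`p(t) = F(P0 + t (b, a)) ∈ ℤ[t]`, `F = Φ + G`, has degree `d` with leading coefficient `Φ(b, a) ≠ 0` (NZR). LCK. -/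
def S_LIN : Prop :=
  ∀ (d : ℕ) (Φ : MvPolynomial (Fin 2) ℤ), 2 ≤ d → Lead d Φ → ∃ C : ℝ, 1 ≤ C ∧
    ∀ G : MvPolynomial (Fin 2) ℤ, G.totalDegree ≤ d - 1 → ∀ B : ℝ, 1 ≤ B → ∀ S : Finset (ℤ × ℤ),
    (∀ p ∈ S, |((eval ![p.1, p.2] (Φ + G) : ℤ) : ℝ)| ≤ B) →
    (∀ p ∈ S, ∀ q ∈ S, ∀ r ∈ S,
      p.2 * (q.1 - r.1) + q.2 * (r.1 - p.1) + r.2 * (p.1 - q.1) = 0) →
    (#S : ℝ) ≤ C * B ^ ((1 : ℝ) / d)

/-- **JOB TAY** (0.5 h), `theorem tay : S_TAY`. PROOF. `F = ∑ c x^(k-i) y^i`, `y = θ x + u`, binomial theorem. The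
second part: `ev` at an integer point is the cast of `eval`. -/
def S_TAY : Prop :=
  (∀ (d : ℕ) (F : MvPolynomial (Fin 2) ℤ) (θ x u : ℝ), F.totalDegree ≤ d →
    ev F x (θ * x + u) = Q d (tc F θ) x u) ∧
  (∀ (F : MvPolynomial (Fin 2) ℤ) (x y : ℤ), ev F x y = ((eval ![x, y] F : ℤ) : ℝ))

/-- **JOB CZR** (0.8 h), `theorem czr : S_COL → S_WND → S_LIN → S_TAY → S_CZR`. PROOF. `W = A H ≤ A H T^(d-3)`.
`L = c' T/H^(2/3)` as in CND. In a window all the points are collinear (COL) and satisfy `|F(P)| ≤ A H` (TAY: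
`F(x, y) = Q d (tc F θ) x (y - θ x)`), so any finite set of them has at most `C (A H)^(1/d)` elements (LIN), hence
they are finitely many and their number is at most `C' H^(1/d) ≤ C' H^(1/7)`. WND. -/
def S_CZR : Prop :=
  ∀ (d : ℕ) (Φ : MvPolynomial (Fin 2) ℤ) (θ A : ℝ), 7 ≤ d → Lead d Φ → 1 ≤ A → Lio d A θ →
    ∃ C : ℝ, 1 ≤ C ∧ ∀ (H T : ℝ) (G : MvPolynomial (Fin 2) ℤ), 1 ≤ H → C * H ≤ T →
    G.totalDegree ≤ d - 1 → Bd d A H (tc (Φ + G) θ) →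
    (Ap d (tc (Φ + G) θ) θ A H T (A * H)).Finite ∧
    ((Ap d (tc (Φ + G) θ) θ A H T (A * H)).ncard : ℝ) ≤ C * H ^ ((2 : ℝ) / 3 + 1 / 7)

/-! ## The leading form -/

/-- **JOB DEH** (0.8 h), `theorem deh : S_DEH`. PROOF. `f(z) = Φ(1, z)`. `Φ` is not divisible by `x` (otherwise
`Φ = c x`, degree 1), so the coefficient of `y^d` is not `0` and `f` has degree `d`. If `f = g h` over `ℚ` with
degrees `r, s ≥ 1`, `r + s = d`, then `Φ(x, y) = x^r g(y/x) x^s h(y/x)` is a product of two forms of positive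
degree. -/
def S_DEH : Prop :=
  ∀ (d : ℕ) (Φ : MvPolynomial (Fin 2) ℤ), 2 ≤ d → Lead d Φ → ∃ f : Polynomial ℤ,
    f.natDegree = d ∧ Irreducible (f.map (Int.castRingHom ℚ)) ∧
    (∀ i, i ≤ d → f.coeff i = Φ.coeff (Finsupp.single 0 (d - i) + Finsupp.single 1 i)) ∧
    (∀ x y : ℝ, x ≠ 0 → ev Φ x y = x ^ d * (f.map (Int.castRingHom ℝ)).eval (y / x))

/-- **JOB RT** (1 h), `theorem rt : S_DEH → S_RT`. PROOF. `f` of DEH is irreducible over `ℚ`, so separable, with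
simple zeros in `ℂ`; `f = c ∏ (z - ω)`. `Θ` = the real zeros. For `z ∈ [-1, 1]` let `ω₀` be a zero nearest to `z`;
for the other zeros `|z - ω| ≥ |ω₀ - ω|/2`, so `|f(z)| ≥ c' |z - ω₀|`; if `ω₀` is not real then
`|z - ω₀| ≥ |Im ω₀| ≥ c''`. (Or compactness of `[-1, 1]`.) Multiply by `x^d`, `z = y/x`. `tc Φ θ d 1 = f'(θ) ≠ 0`.
Liouville: `|θ - a/b| > 1` is trivial (`A ≥ 1`); otherwise `1 ≤ |Φ(b, a)| = b^d |f(a/b) - f(θ)| ≤ K b^d |θ - a/b|`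
with `K` = the maximum of `|f'|` on `[θ - 1, θ + 1]`; `Φ(b, a) ≠ 0` is an integer (S_NZR, or: the irreducible `f`
of degree `d ≥ 2` has no rational zero). -/
def S_RT : Prop :=
  ∀ (d : ℕ) (Φ : MvPolynomial (Fin 2) ℤ), 2 ≤ d → Lead d Φ → ∃ (Θ : Finset ℝ) (C : ℝ), 1 ≤ C ∧
    (∀ θ ∈ Θ, ev Φ 1 θ = 0 ∧ tc Φ θ d 1 ≠ 0 ∧ Lio d C θ) ∧
    ∀ x y : ℝ, 0 < x → |y| ≤ x →
      x ^ d ≤ C * |ev Φ x y| ∨ ∃ θ ∈ Θ, |y - θ * x| * x ^ (d - 1) ≤ C * |ev Φ x y|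

/-- **JOB BDD** (0.5 h), `theorem bdd : S_BDD`. PROOF. The coefficients of degree `d` of `F = Φ + G` are those of
`Φ` (`tc F θ d j = tc Φ θ d j`), `tc Φ θ d 0 = Φ(1, θ) = 0`; those of degree `k < d` are those of `G`, at most `H`,
and `|tc F θ k j| ≤ (k + 1) H 2^k max(1, |θ|)^k`. -/
def S_BDD : Prop :=
  ∀ (d : ℕ) (Φ : MvPolynomial (Fin 2) ℤ) (θ : ℝ), 2 ≤ d → Φ.IsHomogeneous d → ev Φ 1 θ = 0 →
    tc Φ θ d 1 ≠ 0 → ∃ A : ℝ, 1 ≤ A ∧ ∀ H : ℕ, 1 ≤ H → ∀ F ∈ Fam Φ d H, Bd d A H (tc F θ)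

/-- **JOB PKG** (0.6 h), `theorem pkg : S_RT → S_BDD → S_PKG`. PROOF. `Θ` of RT, `A` the maximum of all the
constants (`Bd` and `Lio` are monotone in `A`). For `near`: `|G(x, y)| ≤ N' H x^(d-1)` (`|y| ≤ x`), so
`|Φ(x, y)| ≤ (d 2^d + N') H x^(d-1)`; by RT either `x ≤ C' H`, excluded by `A H ≤ x` with `A` large, or
`|y - θ x| ≤ C' H`. -/
def S_PKG : Prop :=
  ∀ (d : ℕ) (Φ : MvPolynomial (Fin 2) ℤ), 2 ≤ d → Lead d Φ → ∃ (Θ : Finset ℝ) (A : ℝ), Pkg d Φ Θ A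

/-! ## Counting -/

/-- **JOB CM** (0.7 h), `theorem cm : S_CM`. The modification principle. PROOF. Use `dig 0 0 m (H+1) H p` of
`Q256.UP.PlA`, `p ∈ (Fin m → Fin (H+1)) × Fin (H+1)`: a polynomial in `x` of degree `m` with coefficients in
`[0, H]`, in `PBox m ((m+1) H)` (`dig_mem` with `d = m`), value at `(x, y)` at most `(m+1) H |x|^m`. Map
`(F, p) ↦ F + dig p ∈ B`. The number of preimages of a given `F*` is at most the number of the `P ∈ Reg` with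
`|F*(P)| ≤ (m+1) H |x|^m`: choose for `F ∈ V` a zero `P(F) ∈ Reg`; `F*(P) = dig p (P)` determines `p`
(`dig_inj`, `|x| ≥ H + 1`), so `F`. -/
def S_CM : Prop :=
  ∀ (d H m M : ℕ) (Φ : MvPolynomial (Fin 2) ℤ) (Reg : Set (ℤ × ℤ))
    (V B : Set (MvPolynomial (Fin 2) ℤ)),
    (∀ p ∈ Reg, (H : ℤ) + 1 ≤ |p.1|) → V ⊆ Fam Φ d H → B.Finite →
    (∀ F ∈ V, ∃ p ∈ Reg, eval ![p.1, p.2] F = 0) →
    (∀ F ∈ V, ∀ G ∈ PBox m ((m + 1) * H), F + G ∈ B) →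
    (∀ F ∈ B, {p | p ∈ Reg ∧ |eval ![p.1, p.2] F| ≤ (m + 1) * H * |p.1| ^ m}.Finite ∧
      {p | p ∈ Reg ∧ |eval ![p.1, p.2] F| ≤ (m + 1) * H * |p.1| ^ m}.ncard ≤ M) →
    Nat.card V * (H + 1) ^ (m + 1) ≤ M * Nat.card B

/-- **JOB FAM** (0.4 h), `theorem fam : S_FAM`. The family is finite, its number of elements, and its behaviour under
modifications. -/
def S_FAM : Prop :=
  (∀ (Φ : MvPolynomial (Fin 2) ℤ) (d H : ℕ), 1 ≤ d →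
    (Fam Φ d H).Finite ∧ Nat.card (Fam Φ d H) = (2 * H + 1) ^ NN d) ∧
  (∀ (Φ : MvPolynomial (Fin 2) ℤ) (d H m K : ℕ), m ≤ d - 1 → ∀ F ∈ Fam Φ d H, ∀ G ∈ PBox m K,
    F + G ∈ Fam Φ d (H + K))

/-- **JOB DEG** (0.7 h), `theorem deg : S_DEG`. (1) `rho` does not change if a polynomial of degree `≤ d - 3` is added
(it uses only the coefficients of degree `d, d-1, d-2`). (2) PROOF. Map `(F, t) ↦ F + t x^(d-2)`, `0 ≤ t ≤ H`, into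
`Fam Φ d (2H)`. It changes `rho` by `t` exactly (only `tc F θ (d-2) 0` changes, and by `t`; `kap` does not change as
`d - 2 < d - 1`), so `t` is determined by `|rho(F + t x^(d-2)) - t| ≤ 1/4`: the map is injective. -/
def S_DEG : Prop :=
  (∀ (d : ℕ) (F G : MvPolynomial (Fin 2) ℤ) (θ : ℝ), 5 ≤ d → G.totalDegree ≤ d - 3 →
    rho d (tc (F + G) θ) = rho d (tc F θ)) ∧
  (∀ (d H : ℕ) (Φ : MvPolynomial (Fin 2) ℤ) (θ : ℝ), 5 ≤ d →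
    Nat.card {F | F ∈ Fam Φ d H ∧ |rho d (tc F θ)| ≤ 1 / 4} * (H + 1) ≤
      (2 * (2 * H) + 1) ^ NN d)

/-- **JOB BGN** (1 h), `theorem bgn : S_CND → S_CM → S_FAM → S_DEG → S_TAY → S_BGN`. The nondegenerate `F`. PROOF.
`m = d - 4`, `Reg` = the `(x, y)` with `T ≤ x < 2T`, `|y| ≤ x`. `V` = the set in the statement, `B` = the `F` in
`Fam Φ d ((m+2) H)` with `|rho| > 1/4` for all `θ ∈ Θ` (S_DEG (1): `V` modified is in `B`, `m = d - 4 ≤ d - 3`). For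
`F ∈ B` a point `P ∈ Reg` with `|F(P)| ≤ (m+1) H x^m` is near some `θ ∈ Θ` (`Pkg.near`, with `(m+2) H` for `H`), and
`|F(P)| ≤ (m+1) H (2T)^m ≤ A ((m+2) H) T^(d-4)`, so it is in `Ap d (tc F θ) θ A ((m+2)H) T (A (m+2) H T^(d-4))`; by CND
at most `#Θ C H^(2/3)` points for `H ≥ H1` (the condition `((m+2)H)^(d-3) ≤ T` may fail for `T` near `H^(d-3)`: the
statement assumes `(d H)^(d-3) ≤ T`; also `A (m+2) H ≤ T` for `H ≥ H1`). CM: `#V (H+1)^(d-3) ≤ C H^(2/3) (C H)^NN`, so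
`#V ≤ C H^(NN - (d-3) + 2/3) ≤ C H^(NN - 10/3)`. For `H < H1` the family has at most `C` elements. -/
def S_BGN : Prop :=
  ∀ (d : ℕ) (Φ : MvPolynomial (Fin 2) ℤ) (Θ : Finset ℝ) (A : ℝ), 7 ≤ d → Lead d Φ → Pkg d Φ Θ A →
    ∃ C : ℝ, 1 ≤ C ∧ ∀ H T : ℕ, 1 ≤ H → (d * H) ^ (d - 3) ≤ T →
    (Nat.card {F | F ∈ ZR Φ d H T (2 * T) ∧ ∀ θ ∈ Θ, 1 / 4 < |rho d (tc F θ)|} : ℝ) ≤
      C * (H : ℝ) ^ ((NN d : ℝ) - 10 / 3)

/-- **JOB BGD** (1 h), `theorem bgd : S_CZR → S_CM → S_FAM → S_DEG → S_TAY → S_BGD`. The degenerate `F`. PROOF. `m = 0`,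
`Reg` as in BGN. `V` = the set in the statement, `B` = the `F ∈ Fam Φ d (2H)` with `|rho| ≤ 1/4` for some `θ ∈ Θ`;
`#B ≤ #Θ (8H+1)^NN/(2H+1)` by S_DEG (2). For `F ∈ B` a point `P ∈ Reg` with `|F(P)| ≤ H` is near some `θ ∈ Θ`, in
`Ap d (tc F θ) θ A (2H) T (A (2H))`; CZR: at most `C H^(2/3+1/7)` points (if `T ≥ C H`, true for `H ≥ H1`). CM:
`#V (H+1) ≤ C H^(2/3+1/7) H^(NN-1)`, so `#V ≤ C H^(NN - 2 + 17/21) = C H^(NN - 25/21)`. -/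
def S_BGD : Prop :=
  ∀ (d : ℕ) (Φ : MvPolynomial (Fin 2) ℤ) (Θ : Finset ℝ) (A : ℝ), 7 ≤ d → Lead d Φ → Pkg d Φ Θ A →
    ∃ C : ℝ, 1 ≤ C ∧ ∀ H T : ℕ, 1 ≤ H → (d * H) ^ (d - 3) ≤ T →
    (Nat.card {F | F ∈ ZR Φ d H T (2 * T) ∧ ∃ θ ∈ Θ, |rho d (tc F θ)| ≤ 1 / 4} : ℝ) ≤
      C * (H : ℝ) ^ ((NN d : ℝ) - 25 / 21)

/-- **JOB MID** (0.9 h), `theorem mid : S_PKG → S_CM → S_FAM → S_TAY → S_MID`. PROOF. `m = d - 1`, `Reg` = the `(x, y)`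
with `T ≤ x ≤ 2T`, `|y| ≤ x`; `V = ZR Φ d H T (2T)`, `B = Fam Φ d ((d+1) H)`. For `F ∈ B` a point `P ∈ Reg` with
`|F(P)| ≤ d H x^(d-1)` has `|y - θ x| ≤ A (d+1) H` for some `θ ∈ Θ` (`Pkg.near`), so there are at most
`#Θ (T + 1)(2 A (d+1) H + 1) ≤ C H T` of them. CM: `#V (H+1)^d ≤ C H T (C H)^NN`. -/
def S_MID : Prop :=
  ∀ (d : ℕ) (Φ : MvPolynomial (Fin 2) ℤ), 5 ≤ d → Lead d Φ → ∃ C : ℝ, 1 ≤ C ∧
    ∀ H T : ℕ, 1 ≤ H → C * H ≤ T →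
    (Nat.card (ZR Φ d H T (2 * T)) : ℝ) ≤ C * T * (H : ℝ) ^ ((NN d : ℝ) + 1 - d)

/-- **JOB DYA** (1 h), `theorem dya : S_PKG → S_BGN → S_BGD → S_MID → S_DYA`. PROOF. Cover `[K H, (K H)^e]` by the
intervals `[T, 2T]`, `T = 2^n K H`. For `T ≤ (d H)^(d-3)`: MID, and `∑ T ≤ 2 (d H)^(d-3)` gives
`C H^(d-3) H^(NN+1-d) = C H^(NN-2)`. For `T ≥ (d H)^(d-3)`: BGN and BGD (every `F` is in one of the two sets), and
the number of these `T` is at most `e log(K H)/log 2 + 1 ≤ C H^(1/42)`, `25/21 - 1/42 = 7/6`. -/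
def S_DYA : Prop :=
  ∀ (d : ℕ) (Φ : MvPolynomial (Fin 2) ℤ), 7 ≤ d → Lead d Φ → ∃ K0 : ℕ, ∀ K e : ℕ, K0 ≤ K →
    ∃ C : ℝ, 1 ≤ C ∧ ∀ H : ℕ, 1 ≤ H →
    (Nat.card (ZR Φ d H (K * H) ((K * H) ^ e)) : ℝ) ≤ C * (H : ℝ) ^ ((NN d : ℝ) - 7 / 6)

/-- **JOB SML** (0.9 h), `theorem sml : S_SML`. Small points. PROOF. For a point `P ≠ 0`, `q = |P k| = max(|x|, |y|)`:
`#{F ∈ Fam Φ d H : F(P) = 0} min(H+1, q)^(d-1) (H+1) ≤ (2 (d+1) H + 1)^NN` (the maps `(F, p) ↦ F + dig k 0 (d-1) μ H p`,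
`μ = min(H+1, q)`, as in `count_pt` of `Q256.UP.PlA`; use `modify` for `F - Φ`, or its proof). As
`q ≤ K H`: `min(H+1, q) ≥ q/K`, so the number is at most `C H^(NN-1)/q^(d-1)`. There are at most `8 q` points
with `max(|x|, |y|) = q`, and `∑_(q > R) 8 q/q^(d-1) ≤ C/(R+1)^(d-3)` (`d ≥ 5`). -/
def S_SML : Prop :=
  ∀ (d K : ℕ) (Φ : MvPolynomial (Fin 2) ℤ), 5 ≤ d → ∃ C : ℝ, 1 ≤ C ∧ ∀ H R : ℕ, 1 ≤ H →
    (Nat.card {F | F ∈ Fam Φ d H ∧ ∃ x y : ℤ, (R : ℤ) < max |x| |y| ∧ max |x| |y| ≤ K * H ∧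
      eval ![x, y] F = 0} : ℝ) ≤ C * (H : ℝ) ^ ((NN d : ℝ) - 1) * (1 / ((R : ℝ) + 1) ^ (d - 3))

/-- **JOB IRR** (0.8 h), `theorem irr : S_IRR`. PROOF. Over `ℚ`: if `Φ + G = A B` then the leading forms multiply,
`Φ = A_top B_top`, and `deg A + deg B = d`; `Φ` is irreducible, so one of `A_top`, `B_top` is a constant, i.e. `A` or
`B` is a constant. -/
def S_IRR : Prop :=
  ∀ (d : ℕ) (Φ G : MvPolynomial (Fin 2) ℤ), 1 ≤ d → Lead d Φ → G.totalDegree ≤ d - 1 →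
    (Φ + G).totalDegree = d ∧ homogeneousComponent d (Φ + G) = Φ ∧
    Irreducible (MvPolynomial.map (Int.castRingHom ℚ) (Φ + G))

/-- **JOB LRG** (0.7 h), `theorem lrg : S_IRR → S_LRG`. Points of size more than a power of `H`, by the starting result
`Pool.Agent.Results.MP_2d259b_nt.FewExceptionalCurves.result` (import it; the closure is about 80 files). PROOF. For
`F = Φ + G` in the family all coefficients are at most `H' = max(H, h) ≤ h H` (`h ≥ 1` a bound for the coefficients of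
`Φ`), `∑ |coefficients| ≤ h' H`. Let `e = 10^11 36^d (d+1)^13`, `K0 = (d+1) h'`. If `F` has a zero of size more than
`(K H)^e`, `K ≥ K0`, then it is one of the at most `C (2H'+1)^(4d-2)` exceptional ones (IRR), and
`4 d - 2 ≤ NN d - 2` for `d ≥ 7`. -/
def S_LRG : Prop :=
  ∀ (d : ℕ) (Φ : MvPolynomial (Fin 2) ℤ), 7 ≤ d → Lead d Φ → ∃ K0 e : ℕ, ∃ C : ℝ, 1 ≤ C ∧
    ∀ K H : ℕ, K0 ≤ K → 1 ≤ H →
    (Nat.card {F | F ∈ Fam Φ d H ∧ ∃ x y : ℤ, (((K * H) ^ e : ℕ) : ℤ) < max |x| |y| ∧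
      eval ![x, y] F = 0} : ℝ) ≤ C * (H : ℝ) ^ ((NN d : ℝ) - 2)

/-- **JOB SYM** (0.9 h), `theorem sym : S_SYM`. PROOF. `Φ'` = `Φ(y, x)` (`rename` with the swap), again irreducible.
A zero `(x, y)` of `F` with `a ≤ max(|x|, |y|) ≤ b` is of one of the four kinds `x ≥ |y|`, `-x ≥ |y|`, `y ≥ |x|`,
`-y ≥ |x|`. In the second case `(-x, -y)` is a zero of `(-1)^d F(-x, -y) ∈ Fam Φ d H` (leading form `Φ`, coefficients up
to signs), in the third `(y, x)` is a zero of `F(y, x) ∈ Fam Φ' d H`, in the fourth both. These maps `F ↦ …` are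
injective. -/
def S_SYM : Prop :=
  ∀ (d : ℕ) (Φ : MvPolynomial (Fin 2) ℤ), 1 ≤ d → Lead d Φ → ∃ Φ' : MvPolynomial (Fin 2) ℤ,
    Lead d Φ' ∧ ∀ H a b : ℕ,
    Nat.card {F | F ∈ Fam Φ d H ∧ ∃ x y : ℤ, (a : ℤ) ≤ max |x| |y| ∧ max |x| |y| ≤ b ∧
      eval ![x, y] F = 0} ≤ 2 * Nat.card (ZR Φ d H a b) + 2 * Nat.card (ZR Φ' d H a b)

/-- **JOB PAR** (0.5 h), `theorem par : S_PAR`. Two given zeros. PROOF. As `count_two` of `Q256.UP.PlA`: if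
`P k ≠ P' k`, the map `(F, s, t) ↦ F + s + t x_k`, `0 ≤ s, t ≤ H`, into `Fam Φ d (3H)` is injective. -/
def S_PAR : Prop :=
  ∀ (d H : ℕ) (Φ : MvPolynomial (Fin 2) ℤ) (P P' : Fin 2 → ℤ), 2 ≤ d → P ≠ P' →
    Nat.card {F | F ∈ Fam Φ d H ∧ eval P F = 0 ∧ eval P' F = 0} * ((H + 1) * (H + 1)) ≤
      (2 * (3 * H) + 1) ^ NN d

/-- **JOB TAL** (0.6 h), `theorem tal : S_DYA → S_SML → S_LRG → S_SYM → S_TAL`. PROOF. Let `K` be larger than the `K0` of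
DYA for `Φ` and `Φ'` and of LRG. Points of size `≤ K H`: SML. From `K H` to `(K H)^e`: SYM and DYA (for `Φ` and `Φ'`).
Larger: LRG. `H^(NN - 7/6) = H^(NN-1) H^(-1/6)`, `H^(NN-2) ≤ H^(NN-7/6)`. -/
def S_TAL : Prop :=
  ∀ (d : ℕ) (Φ : MvPolynomial (Fin 2) ℤ), 7 ≤ d → Lead d Φ → ∃ C : ℝ, 1 ≤ C ∧
    ∀ H R : ℕ, 1 ≤ H →
    (Nat.card {F | F ∈ Fam Φ d H ∧ ∃ x y : ℤ, (R : ℤ) < max |x| |y| ∧ eval ![x, y] F = 0} : ℝ) ≤
      C * (H : ℝ) ^ ((NN d : ℝ) - 1) * (1 / ((R : ℝ) + 1) ^ (d - 3) + (H : ℝ) ^ (-(1 / 6 : ℝ)))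

/-- **JOB UNQ** (0.7 h), `theorem unq : S_TAL → S_PAR → S_UNQ`. PROOF. `R` = the integral part of `H^(1/24)`. If `F` has two
different zeros then either one of them has size `> R`: TAL, `1/(R+1)^(d-3) ≤ H^(-(d-3)/24) ≤ H^(-1/6)` (`d ≥ 7`); or
both have size `≤ R`: at most `(2R+1)^4` pairs, for each at most `(6H+1)^NN/(H+1)^2 ≤ C H^(NN-2)` polynomials (PAR),
`(2R+1)^4 ≤ 81 H^(1/6)`. -/
def S_UNQ : Prop :=
  ∀ (d : ℕ) (Φ : MvPolynomial (Fin 2) ℤ), 7 ≤ d → Lead d Φ → ∃ C : ℝ, 1 ≤ C ∧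
    ∀ H : ℕ, 1 ≤ H →
    (Nat.card {F | F ∈ Fam Φ d H ∧ {p : ℤ × ℤ | eval ![p.1, p.2] F = 0}.Nontrivial} : ℝ) ≤
      C * (H : ℝ) ^ ((NN d : ℝ) - 1) * (H : ℝ) ^ (-(1 / 6 : ℝ))

/-- **JOB ONE** (0.4 h), `theorem one : S_ONE`. PROOF. The `F` with constant coefficient `0` (`Φ` has none) vanish at
`(0, 0)`, and conversely; there are `(2H+1)^(NN-1)` of them. -/
def S_ONE : Prop :=
  ∀ (d H : ℕ) (Φ : MvPolynomial (Fin 2) ℤ), 1 ≤ d → Φ.IsHomogeneous d →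
    Nat.card {F | F ∈ Fam Φ d H ∧ eval ![(0 : ℤ), 0] F = 0} = (2 * H + 1) ^ (NN d - 1)

end Pool.Agent.Q256.UI
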