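import Mathlib
import Pool.Agent.Q256.UI.Stm
import Pool.Agent.Q124.UI.DD1
import Pool.Agent.Q124.UI.DD2
import Pool.Agent.Q124.UI.DD3
import Pool.Agent.Q124.UI.SPC
import Pool.Agent.Q182.UI.Col
import Pool.Agent.Q68.UI_TWO
import Pool.Agent.Q68.UI_WND
import Pool.Agent.Q38.UI_CND
import Pool.Agent.Q38.UI_LCK
import Pool.Agent.Q38.UI_NZR
import Pool.Agent.Q261.UI.LIN
import Pool.Agent.Q285.UI_TAY
import Pool.Agent.Q53.UI_CZR
import Pool.Agent.Q53.UI_DEH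
import Pool.Agent.Q53.UI_RT
import Pool.Agent.Q285.UI_BDD
import Pool.Agent.Q53.UI_PKG
import Pool.Agent.Q14.UI_CM
import Pool.Agent.Q26.UI_FAM
import Pool.Agent.Q31.UI_DEG
import Pool.Agent.Q68.UI_BGN
import Pool.Agent.Q96.UI.Bgd
import Pool.Agent.Q96.UI.Mid
import Pool.Agent.Q149.UI.DYA
import Pool.Agent.Q14.UI_SML
import Pool.Agent.Q149.UI.IRR
import Pool.Agent.Q208.UI.LRG
import Pool.Agent.Q290.UI_SYM
import Pool.Agent.Q285.UI_PAR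
import Pool.Agent.Q290.UI_TAL
import Pool.Agent.Q290.UI_UNQ
import Pool.Agent.Q26.UI_ONE

set_option autoImplicit false

/-! Project UI: all the lemmas together. -/

namespace Pool.Agent.Q256.UI

theorem h_col : S_COL := Pool.Agent.Q182.UI.col (Pool.Agent.Q124.UI.dd2 Pool.Agent.Q124.UI.dd1)
  (Pool.Agent.Q124.UI.spc Pool.Agent.Q124.UI.dd1)

theorem h_two : S_TWO := Pool.Agent.Q68.UI.two (Pool.Agent.Q124.UI.dd3 Pool.Agent.Q124.UI.dd1)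
  (Pool.Agent.Q124.UI.spc Pool.Agent.Q124.UI.dd1) h_col

theorem h_cnd : S_CND := Pool.Agent.Q38.UI.cnd h_two Pool.Agent.Q68.UI.wnd

theorem h_lin : S_LIN := Pool.Agent.Q261.UI.lin Pool.Agent.Q38.UI.lck Pool.Agent.Q38.UI.nzr

theorem h_czr : S_CZR := Pool.Agent.Q53.UIC.czr h_col Pool.Agent.Q68.UI.wnd h_lin
  Pool.Agent.Q285.UI.tay

theorem h_pkg : S_PKG := Pool.Agent.Q53.UIP.pkg (Pool.Agent.Q53.UI.rt Pool.Agent.Q53.UI.deh)
  Pool.Agent.Q285.UI.bdd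

theorem h_bgn : S_BGN := Pool.Agent.Q68.UI.bgn h_cnd Pool.Agent.Q14.UI.cm Pool.Agent.Q26.UI.fam
  Pool.Agent.Q31.UIDEG.deg Pool.Agent.Q285.UI.tay

theorem h_bgd : S_BGD := Pool.Agent.Q96.UI.bgd h_czr Pool.Agent.Q14.UI.cm Pool.Agent.Q26.UI.fam
  Pool.Agent.Q31.UIDEG.deg Pool.Agent.Q285.UI.tay

theorem h_mid : S_MID := Pool.Agent.Q96.UI.mid h_pkg Pool.Agent.Q14.UI.cm Pool.Agent.Q26.UI.fam
  Pool.Agent.Q285.UI.tay

theorem h_dya : S_DYA := Pool.Agent.Q149.UI.dya h_pkg h_bgn h_bgd h_mid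

theorem h_tal : S_TAL := Pool.Agent.Q290.tal h_dya Pool.Agent.Q14.UI.sml
  (Pool.Agent.Q208.UI.lrg Pool.Agent.Q149.UI.irr) Pool.Agent.Q290.sym

theorem h_unq : S_UNQ := Pool.Agent.Q290.unq h_tal Pool.Agent.Q285.UI.par

end Pool.Agent.Q256.UI
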